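import Pool.Agent.FUR.Stmts

/-!
# Squad FUR (MP_a6aa4e_lc), row ONB: fixing a variable in a reduced formula
-/

set_option autoImplicit false

open Finset

namespace Pool.Agent.FUR.H83

open Pool.Agent.FUR

variable {N : ℕ}

theorem lv_pos : ∀ F : Fm (Fin N), F.noc → 1 ≤ F.lv
  | Fm.cst _, h => absurd h (by simp [Fm.noc])
  | Fm.lit _ _, _ => by simp [Fm.lv]
  | Fm.and G H, h => by
    have h1 := lv_pos G h.1
    simp only [Fm.lv]
    omega
  | Fm.or G H, h => by
    have h1 := lv_pos G h.1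
    simp only [Fm.lv]
    omega

theorem lit_of_lv_one : ∀ F : Fm (Fin N), F.noc → F.lv ≤ 1 → ∃ w c, F = Fm.lit w c
  | Fm.cst _, h, _ => absurd h (by simp [Fm.noc])
  | Fm.lit w c, _, _ => ⟨w, c, rfl⟩
  | Fm.and G H, h, h1 => by
    have h2 := lv_pos G h.1
    have h3 := lv_pos H h.2
    simp only [Fm.lv] at h1
    omega
  | Fm.or G H, h, h1 => by
    have h2 := lv_pos G h.1
    have h3 := lv_pos H h.2
    simp only [Fm.lv] at h1
    omega

theorem ev_update (v : Fin N) : ∀ F : Fm (Fin N), F.cnt v = 0 → ∀ (x : Fin N → Bool) (b : Bool),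
    F.ev (Function.update x v b) = F.ev x
  | Fm.cst _, _, _, _ => rfl
  | Fm.lit w c, h, x, b => by
    have h1 : w ≠ v := by
      intro h2
      simp [Fm.cnt, h2] at h
    simp only [Fm.ev, Function.update_of_ne h1]
  | Fm.and G H, h, x, b => by
    simp only [Fm.cnt, Nat.add_eq_zero_iff] at h
    simp only [Fm.ev, ev_update v G h.1, ev_update v H h.2]
  | Fm.or G H, h, x, b => by
    simp only [Fm.cnt, Nat.add_eq_zero_iff] at h
    simp only [Fm.ev, ev_update v G h.1, ev_update v H h.2]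

/-- the claim for one formula -/
def Cl (v : Fin N) (F : Fm (Fin N)) : Prop := ∃ D : Bool → ℕ,
  (∀ b, F.cnt v ≤ D b ∧ D b ≤ F.lv ∧
    ∃ G : Fm (Fin N), (∀ x, G.ev x = F.ev (Function.update x v b)) ∧ G.lv + D b ≤ F.lv) ∧
  (2 ≤ F.lv → 3 * F.cnt v ≤ D false + D true)

/-- the claim for a gate, one input being a literal of `v` -/
theorem gate_lit {v : Fin N} {F H : Fm (Fin N)} (c : Bool) (e : Bool) (hH : 1 ≤ H.lv)
    (hlv : F.lv = H.lv + 1) (hcnt : F.cnt v = 1)
    (h1 : ∀ x : Fin N → Bool, H.ev x = F.ev (Function.update x v c))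
    (h2 : ∀ x : Fin N → Bool, e = F.ev (Function.update x v (!c))) : Cl v F := by
  refine ⟨fun b => if b = c then 1 else H.lv + 1, fun b => ?_, fun _ => ?_⟩
  · by_cases hb : b = c
    · subst hb
      simp only [if_true]
      refine ⟨by omega, by omega, H, h1, by omega⟩
    · have hb' : b = !c := by
        cases b <;> cases c <;> simp_all
      simp only [if_neg hb]
      refine ⟨by omega, by omega, Fm.cst e, fun x => ?_, ?_⟩
      · rw [hb', ← h2 x]
        rfl
      · simp only [Fm.lv]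
        omega
  · cases c <;> simp <;> omega

/-- the sum bound without the condition on the number of leaves -/
theorem sum_bound {v : Fin N} {G : Fm (Fin N)} (hn : G.noc) (hl : ∀ c, G ≠ Fm.lit v c)
    {D : Bool → ℕ} (h : 2 ≤ G.lv → 3 * G.cnt v ≤ D false + D true) :
    3 * G.cnt v ≤ D false + D true := by
  rcases Nat.lt_or_ge G.lv 2 with h1 | h1
  · obtain ⟨w, c, hw⟩ := lit_of_lv_one G hn (by omega)
    have h2 : w ≠ v := by
      intro h3
      exact hl c (by rw [hw, h3])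
    rw [hw]
    simp [Fm.cnt, h2]
  · exact h h1

/-- the claim for a gate, no input being a literal of `v` -/
theorem gate_sum {v : Fin N} {F G H : Fm (Fin N)} (hG : G.noc) (hH : H.noc)
    (hGl : ∀ c, G ≠ Fm.lit v c) (hHl : ∀ c, H ≠ Fm.lit v c)
    (hlv : F.lv = G.lv + H.lv) (hcnt : F.cnt v = G.cnt v + H.cnt v)
    (hev : ∀ G' H' : Fm (Fin N), ∃ F' : Fm (Fin N), F'.lv = G'.lv + H'.lv ∧
      ∀ x y : Fin N → Bool, G'.ev x = G.ev y → H'.ev x = H.ev y → F'.ev x = F.ev y)
    (iG : Cl v G) (iH : Cl v H) : Cl v F := by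
  obtain ⟨D1, h1, h2⟩ := iG
  obtain ⟨D2, h3, h4⟩ := iH
  refine ⟨fun b => D1 b + D2 b, fun b => ?_, fun _ => ?_⟩
  · obtain ⟨a1, a2, G', a3, a4⟩ := h1 b
    obtain ⟨b1, b2, H', b3, b4⟩ := h3 b
    obtain ⟨F', f1, f2⟩ := hev G' H'
    show F.cnt v ≤ D1 b + D2 b ∧ D1 b + D2 b ≤ F.lv ∧ ∃ G : Fm (Fin N),
      (∀ x, G.ev x = F.ev (Function.update x v b)) ∧ G.lv + (D1 b + D2 b) ≤ F.lv
    exact ⟨by omega, by omega, F', fun x => f2 _ _ (a3 x) (b3 x), by omega⟩
  · have h5 := sum_bound hG hGl h2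
    have h6 := sum_bound hH hHl h4
    show 3 * F.cnt v ≤ D1 false + D2 false + (D1 true + D2 true)
    omega

theorem claim (v : Fin N) : ∀ F : Fm (Fin N), F.red → F.noc → Cl v F
  | Fm.cst _, _, h => absurd h (by simp [Fm.noc])
  | Fm.lit w c, _, _ => by
    by_cases hw : w = v
    · refine ⟨fun _ => 1, fun b => ⟨?_, ?_, Fm.cst (b == c), fun x => ?_, ?_⟩, fun h => ?_⟩
      · simp [Fm.cnt, hw]
      · simp [Fm.lv]
      · simp [Fm.ev, hw]
      · simp [Fm.lv]
      · simp [Fm.lv] at h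
    · refine ⟨fun _ => 0, fun b => ⟨?_, ?_, Fm.lit w c, fun x => ?_, ?_⟩, fun h => ?_⟩
      · simp [Fm.cnt, hw]
      · simp
      · simp only [Fm.ev, Function.update_of_ne hw]
      · simp
      · simp [Fm.lv] at h
  | Fm.and G H, hr, hn => by
    obtain ⟨r1, r2, r3, r4⟩ := hr
    obtain ⟨n1, n2⟩ := hn
    by_cases hG : ∃ c, G = Fm.lit v c
    · obtain ⟨c, hc⟩ := hG
      have h0 := r3 v c hc
      subst hc
      refine gate_lit (H := H) c false (lv_pos H n2) ?_ ?_ (fun x => ?_) (fun x => ?_)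
      · simp only [Fm.lv]
        omega
      · simp [Fm.cnt, h0]
      · simp only [Fm.ev, Function.update_self, ev_update v H h0, beq_self_eq_true, Bool.true_and]
      · simp [Fm.ev]
    by_cases hH : ∃ c, H = Fm.lit v c
    · obtain ⟨c, hc⟩ := hH
      have h0 := r4 v c hc
      subst hc
      refine gate_lit (H := G) c false (lv_pos G n1) ?_ ?_ (fun x => ?_) (fun x => ?_)
      · simp only [Fm.lv]
      · simp [Fm.cnt, h0]
      · simp only [Fm.ev, Function.update_self, ev_update v G h0, beq_self_eq_true, Bool.and_true]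
      · simp [Fm.ev]
    push Not at hG hH
    refine gate_sum n1 n2 hG hH rfl rfl (fun G' H' => ⟨Fm.and G' H', rfl, fun x y e1 e2 => ?_⟩)
      (claim v G r1 n1) (claim v H r2 n2)
    simp only [Fm.ev, e1, e2]
  | Fm.or G H, hr, hn => by
    obtain ⟨r1, r2, r3, r4⟩ := hr
    obtain ⟨n1, n2⟩ := hn
    by_cases hG : ∃ c, G = Fm.lit v c
    · obtain ⟨c, hc⟩ := hG
      have h0 := r3 v c hc
      subst hc
      refine gate_lit (H := H) (!c) true (lv_pos H n2) ?_ ?_ (fun x => ?_) (fun x => ?_)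
      · simp only [Fm.lv]
        omega
      · simp [Fm.cnt, h0]
      · simp [Fm.ev, ev_update v H h0]
      · simp [Fm.ev]
    by_cases hH : ∃ c, H = Fm.lit v c
    · obtain ⟨c, hc⟩ := hH
      have h0 := r4 v c hc
      subst hc
      refine gate_lit (H := G) (!c) true (lv_pos G n1) ?_ ?_ (fun x => ?_) (fun x => ?_)
      · simp only [Fm.lv]
      · simp [Fm.cnt, h0]
      · simp [Fm.ev, ev_update v G h0]
      · simp [Fm.ev]
    push Not at hG hH
    refine gate_sum n1 n2 hG hH rfl rfl (fun G' H' => ⟨Fm.or G' H', rfl, fun x y e1 e2 => ?_⟩)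
      (claim v G r1 n1) (claim v H r2 n2)
    simp only [Fm.ev, e1, e2]

theorem onb : ONBStmt := fun _ F hr hn v => claim v F hr hn

end Pool.Agent.FUR.H83
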